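import Pool.Agent.R952.BK.Close
import Pool.Agent.R952.BK.Count
import Pool.Agent.R952.BK.Dim
import Pool.Agent.R952.BK.Select
import Pool.Agent.R952.BK.Subexp
import Pool.Agent.R952.BK.Unif

/-!
# MP_922b34_an, Q1: every convex cycle trap of the baker's map is a dimension trap

`X = [0,1]^2`, `B` is the baker's map, `pr u` is the point coded by the two-sided sequence `u`,
`sh k u` is the shifted sequence, and `CycleTrap H` says that every periodic orbit of `B` meets
the closure of `H` (all in `Pool/Agent/R952/BK/Defs.lean`).

The answer is affirmative. The set `H` only has to be convex: neither openness nor `H ⊆ X` is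
needed.

Proof. Let `Lg n` be the set of the words of length `n` of the sequences whose orbit avoids `H`.
(1) *Closing.* If `u` repeats a block, the periodic sequence that closes it up codes a periodic
orbit, which meets the closure of `H`; so the orbit of `u` comes close to `H` between the two
copies, at a scale that improves with the length of the block and the distance to its ends.
(2) *Uniformity.* By compactness and a recurrence argument, for every `M` all times `t < N` except
at most `N / 4 + C` lie in the inner part of a window `[k - R, k + R]`, `M ≤ R`, such that the
point at time `k` is at distance `< 2 * 2 ^ (-R)` from `H`. A selection of Vitali type gives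
disjoint windows with total half length at least `N / 20 - C'`.
(3) *Counting.* The word of length `2 R` of such a window is a pair (future, past) that
corresponds to a cell of side `2 ^ (-R)` near the boundary of the convex set `H`. In each of the
16 classes modulo 4 of the cells no cell has cells strictly in all four quadrants around it (a
convex set with points in the four open quadrants at `p` contains `p`), so there are at most
`32 * |Lg R|` such cells: the future and the past together carry only the information of one.
(4) *Growth.* If `|Lg n|` grew exponentially, (2) would give each word a weight that is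
exponentially large, while by (3) the total weight of all the words of length `n` has the same
growth rate as `|Lg n|`. So the topological entropy is zero, and the Hausdorff dimension is zero.
-/

set_option autoImplicit false

open Filter Set

namespace Pool.Agent.Results.MP_922b34_an.ConvexCycleTrap

open R952.BK

/-- **Every convex cycle trap of the baker's map is a dimension trap.** -/
theorem result (H : Set (ℝ × ℝ)) (hconv : Convex ℝ H) (htrap : CycleTrap H) :
    dimH {p : ℝ × ℝ | ∃ q : ℤ → ℝ × ℝ, q 0 = p ∧ (∀ n, q n ∈ X) ∧ (∀ n, B (q n) = q (n + 1)) ∧
      ∀ n, q n ∉ H} = 0 ∧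
    dimH {p : ℝ × ℝ | ∃ u : ℤ → Bool, (∀ k : ℤ, pr (sh k u) ∉ H) ∧ pr u = p} = 0 := by
  have hne : H.Nonempty := by
    by_contra hcon
    rw [Set.not_nonempty_iff_eq_empty] at hcon
    have h0 : ((0 : ℝ), (0 : ℝ)) ∈ X := by
      unfold X
      exact Set.mk_mem_prod ⟨le_rfl, zero_le_one⟩ ⟨le_rfl, zero_le_one⟩
    have hB : B^[1] ((0 : ℝ), (0 : ℝ)) = ((0 : ℝ), (0 : ℝ)) := by
      rw [Function.iterate_one]
      unfold B
      rw [if_pos (by norm_num)]
      norm_num
    obtain ⟨n, hn⟩ := htrap _ h0 1 le_rfl hB
    rw [hcon, closure_empty] at hn
    exact hn
  have hcl := closing H htrap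
  have hsub := subexp H (fun R => mirror_count H hne hconv R) (fun m hm => by
    obtain ⟨L, C, hLC⟩ := unif H hcl (m + 1) (by omega)
    obtain ⟨C', hC'⟩ := select H (m + 1) L (by omega) C
    refine ⟨C', fun u N => ?_⟩
    obtain ⟨F, hF1, hF2, hF3⟩ := hC' u N (hLC u N)
    exact ⟨F, fun a ha => ⟨by have := (hF1 a ha).1; omega, (hF1 a ha).2⟩, hF2, hF3⟩)
  have hd := dim_zero H hsub
  refine ⟨?_, hd⟩
  exact le_antisymm ((dimH_mono (orbit_coded H)).trans hd.le) bot_le

end Pool.Agent.Results.MP_922b34_an.ConvexCycleTrap
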